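import Pool.Agent.Helper50.VD.St

open MeasureTheory Set Filter Topology
open scoped ENNReal

noncomputable section

namespace VD.M_C2

theorem fF_scale (n x M m : ℝ) (l : ℝ) (hl : l ≠ 0) :
    fF (l ^ 2 * n) (l * x) (l ^ 2 * M) (l * m) = fF n x M m / l ^ 2 := by
  unfold fF
  have h1 : l ^ 2 * n + l ^ 2 * M - 2 * (l * x) * (l * m) = l ^ 2 * (n + M - 2 * x * m) := by ring
  have h2 : l ^ 2 * n + l ^ 2 * M + 2 * (l * x) * (l * m) = l ^ 2 * (n + M + 2 * x * m) := by ring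
  rw [h1, h2, one_div, one_div, mul_inv, mul_inv, one_div, one_div]
  field_simp

/-- good consecutive pairs -/
def okP : List (ℕ × ℕ) → Bool
  | Q :: Q' :: l => decide (Q.1 ≤ Q'.1) && decide (Q'.2 ≤ Q.2) && decide (0 < Q.2) &&
      decide (Q.1 * Q'.2 ≤ Q'.1 * Q.2) && okP (Q' :: l)
  | _ => true

theorem okP_ref : okP (refine 10 Vs) = true := by decide +kernel

theorem okP_zip (l : List (ℕ × ℕ)) (h : okP l = true) (Q Q' : ℕ × ℕ) (hm : (Q, Q') ∈ l.zip l.tail) :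
    Q.1 ≤ Q'.1 ∧ Q'.2 ≤ Q.2 ∧ 0 < Q.2 ∧ Q.1 * Q'.2 ≤ Q'.1 * Q.2 := by
  induction l with
  | nil => simp at hm
  | cons a l ih =>
    cases l with
    | nil => simp at hm
    | cons b l =>
      simp only [okP, Bool.and_eq_true, decide_eq_true_eq] at h
      obtain ⟨⟨⟨⟨h1, h2⟩, h3⟩, h4⟩, h5⟩ := h
      simp only [List.tail_cons, List.zip_cons_cons, List.mem_cons, Prod.mk.injEq] at hm
      rcases hm with ⟨rfl, rfl⟩ | hm
      · exact ⟨h1, h2, h3, h4⟩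
      · exact ih h5 (by simpa using hm)

/-- the constant used for one sector -/
def cc (s : ℕ) (Q Q' : ℕ × ℕ) : ℝ :=
  (cellC Q.1 Q.2 Q'.1 Q'.2 s (s + 1) : ℝ) / (Real.pi * 10 ^ 24)

theorem slab_eq (s : ℕ) (l : List (ℕ × ℕ)) (h : okP l = true) :
    (slabC s (s + 1) l : ℝ) / (Real.pi * 10 ^ 24) = pairSum (cc s) l := by
  induction l with
  | nil => simp [slabC, pairSum]
  | cons a l ih =>
    cases l with
    | nil => simp [slabC, pairSum]
    | cons b l =>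
      have h5 : okP (b :: l) = true := by
        simp only [okP, Bool.and_eq_true, decide_eq_true_eq] at h
        exact h.2
      have h4 : a.1 * b.2 ≤ b.1 * a.2 := by
        simp only [okP, Bool.and_eq_true, decide_eq_true_eq] at h
        exact h.1.2
      have e : slabC s (s + 1) (a :: b :: l)
          = (b.1 * a.2 - a.1 * b.2) * (a.2 + b.2) * cellC a.1 a.2 b.1 b.2 s (s + 1)
            + slabC s (s + 1) (b :: l) := rfl
      have e2 : pairSum (cc s) (a :: b :: l)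
          = cc s a b * ((b.1 : ℝ) * a.2 - a.1 * b.2) * ((a.2 : ℝ) + b.2)
            + pairSum (cc s) (b :: l) := rfl
      rw [e, e2, ← ih h5]
      push_cast [Nat.cast_sub h4]
      unfold cc
      ring

theorem cell_le (hT4 : StT4) (s : ℕ) (hs : 70 ≤ s) (Q Q' : ℕ × ℕ) (h1 : Q.1 ≤ Q'.1)
    (h2 : Q'.2 ≤ Q.2) (h3 : 0 < Q.2) (σ u : ℝ) (hσ : (s : ℝ) ≤ σ) (hσ' : σ ≤ s + 1)
    (hu : 0 < u) (hu1 : u < 1) (y : ℝ × ℝ)
    (hy1 : 1000 * y.1 = σ * ((1 - u) * Q.1 + u * Q'.1))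
    (hy2 : 1000 * y.2 = σ * ((1 - u) * Q.2 + u * Q'.2)) : cc s Q Q' ≤ mk y := by
  have hσ'' : σ ≤ ((s + 1 : ℕ) : ℝ) := by push_cast; exact hσ'
  have a1 := hT4 0 (3887000 * 3887000) Q.1 Q.2 Q'.1 Q'.2 s (s + 1) (by norm_num) (by omega) h1 h2
    (by omega) h3 σ u hσ hσ'' hu hu1
  have a2 := hT4 6475000 (6475000 * 6475000) Q.1 Q.2 Q'.1 Q'.2 s (s + 1) (by norm_num) (by omega)
    h1 h2 (by omega) h3 σ u hσ hσ'' hu hu1
  rw [← hy1, ← hy2] at a1 a2
  have b1 : fF ((3887000 * 3887000 : ℕ) : ℝ) ((0 : ℕ) : ℝ) ((1000 * y.1) ^ 2 + (1000 * y.2) ^ 2)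
      (1000 * y.1) = fF (3887 ^ 2) 0 (y.1 ^ 2 + y.2 ^ 2) y.1 / 1000 ^ 2 := by
    rw [← fF_scale _ _ _ _ 1000 (by norm_num)]
    congr 1
    · norm_num
    · norm_num
    · ring
  have b2 : fF ((6475000 * 6475000 : ℕ) : ℝ) ((6475000 : ℕ) : ℝ)
      ((1000 * y.1) ^ 2 + (1000 * y.2) ^ 2)
      (1000 * y.1) = fF (6475 ^ 2) 6475 (y.1 ^ 2 + y.2 ^ 2) y.1 / 1000 ^ 2 := by
    rw [← fF_scale _ _ _ _ 1000 (by norm_num)]
    congr 1
    · norm_num
    · norm_num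
    · ring
  rw [b1] at a1
  rw [b2] at a2
  unfold cc mk
  have hπ := Real.pi_pos
  rw [div_le_div_iff₀ (by positivity) hπ]
  have hc : (cellC Q.1 Q.2 Q'.1 Q'.2 s (s + 1) : ℝ)
      ≤ 10 ^ 24 * min (fF (6475 ^ 2) 6475 (y.1 ^ 2 + y.2 ^ 2) y.1)
        (fF (3887 ^ 2) 0 (y.1 ^ 2 + y.2 ^ 2) y.1) := by
    have e : cellC Q.1 Q.2 Q'.1 Q'.2 s (s + 1)
        = min (fc2 0 (3887000 * 3887000) Q.1 Q.2 Q'.1 Q'.2 s (s + 1))
          (fc2 6475000 (6475000 * 6475000) Q.1 Q.2 Q'.1 Q'.2 s (s + 1)) := by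
      unfold cellC
      rw [mn_eq]
    rw [e, mul_min_of_nonneg _ _ (by positivity : (0 : ℝ) ≤ 10 ^ 24)]
    push_cast
    refine le_min ?_ ?_
    · refine (min_le_right _ _).trans (a2.trans ?_)
      rw [show (10 : ℝ) ^ 30 = 10 ^ 24 * 1000 ^ 2 by norm_num]
      rw [mul_assoc, mul_div_cancel₀ _ (by norm_num : (1000 : ℝ) ^ 2 ≠ 0)]
    · refine (min_le_left _ _).trans (a1.trans ?_)
      rw [show (10 : ℝ) ^ 30 = 10 ^ 24 * 1000 ^ 2 by norm_num]
      rw [mul_assoc, mul_div_cancel₀ _ (by norm_num : (1000 : ℝ) ^ 2 ≠ 0)]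
  nlinarith [hc, hπ]

theorem slC_eq (s : ℕ) :
    slC s = ((s + 1) * (s + 1) * (s + 1) - s * s * s) * slabC s (s + 1) (refine 10 Vs) := by
  simp only [slC, Nat.add_eq, Nat.mul_eq, Nat.sub_eq]

/-- final computation -/
theorem fin (s : ℕ) (a b : ℝ) (l : List (ℕ × ℕ)) (hl : okP l = true) (I : ℝ)
    (key : (b ^ 3 - a ^ 3) / (6 * ((10 : ℕ) : ℝ) ^ 3) * pairSum (cc s) l ≤ I) :
    (b ^ 3 - a ^ 3) * 10 ^ 6 / (((s : ℝ) + 1) ^ 3 - (s : ℝ) ^ 3) *
      ((((s + 1) * (s + 1) * (s + 1) - s * s * s) * slabC s (s + 1) l : ℕ) : ℝ) /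
      (Real.pi * 6 * 10 ^ 33) ≤ I := by
  refine le_trans (le_of_eq ?_) key
  rw [← slab_eq s _ hl]
  have hle : s * s * s ≤ (s + 1) * (s + 1) * (s + 1) := by
    gcongr <;> omega
  generalize slabC s (s + 1) l = X
  rw [Nat.cast_mul, Nat.cast_sub hle]
  push_cast
  have hne : ((s : ℝ) + 1) ^ 3 - (s : ℝ) ^ 3 ≠ 0 := by
    have : ((s : ℝ) + 1) ^ 3 - (s : ℝ) ^ 3 = 3 * (s : ℝ) ^ 2 + 3 * s + 1 := by ring
    rw [this]
    positivity
  have hπ := Real.pi_pos.ne'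
  have e3 : ((s : ℝ) + 1) * (s + 1) * (s + 1) - s * s * s = ((s : ℝ) + 1) ^ 3 - (s : ℝ) ^ 3 := by
    ring
  rw [e3]
  field_simp

end VD.M_C2

namespace VD

open M_C2

/-- one slab of the close check -/
theorem mC2 (hP0 : StP0) (hT2 : StT2) (hT4 : StT4) (hC1 : StC1) : StC2 := by
  intro s a b hs hs' ha hab hb
  obtain ⟨-, -, -, -, -, -, hPB⟩ := hP0
  obtain ⟨-, hpos, -, hint⟩ := hC1
  have ha0 : 0 < a := by
    refine lt_of_lt_of_le ?_ ha
    have : (70 : ℝ) ≤ s := by exact_mod_cast hs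
    positivity
  have hb1 : b ≤ 1 := by
    refine hb.trans ?_
    have : (s : ℝ) ≤ 99 := by exact_mod_cast hs'
    rw [div_le_one (by norm_num)]
    linarith
  have hsub : PB b \ PB a ⊆ PB 1 := fun z hz => ⟨hz.1.1, hz.1.2.trans_le hb1⟩
  have hmeas : MeasurableSet (PB b \ PB a) :=
    (hPB b (ha0.trans hab)).1.meas.diff (hPB a ha0).1.meas
  have key := hT2 10 (cc s) mk a b (by norm_num) ha0 hab hb1 (fun y h1 h2 => (hpos y h1 h2).le)
    (hint _ hmeas hsub) (by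
      intro Q Q' hm
      obtain ⟨h1, h2, h3, h4⟩ := okP_zip _ okP_ref Q Q' hm
      refine Filter.Eventually.of_forall fun y hy => ?_
      obtain ⟨σ, τ, hσ, hτ, hst, hst', e1, e2⟩ := hy
      have hst0 : 0 < σ + τ := by linarith
      refine cell_le hT4 s hs Q Q' h1 h2 h3 (100 * (σ + τ)) (τ / (σ + τ)) ?_ ?_
        (by positivity) (by rw [div_lt_one hst0]; linarith) y ?_ ?_
      · have := ha.trans hst.le
        rw [div_le_iff₀ (by norm_num)] at this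
        linarith
      · have := hst'.le.trans hb
        rw [le_div_iff₀ (by norm_num)] at this
        linarith
      · rw [e1]
        push_cast
        field_simp
        ring
      · rw [e2]
        push_cast
        field_simp
        ring)
  rw [slC_eq]
  exact fin s a b _ okP_ref _ key

end VD
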