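import Pool.Agent.Helper50.VD.St
import Pool.Agent.Helper50.VD.Chk.C

open MeasureTheory Set Filter Topology
open scoped ENNReal

noncomputable section

namespace VD.M_C3

/-! ### the table -/

/-- suffix sums as reals, node `n/100` -/
def V (n : ℕ) : ℝ := (sufJ JJ (n - 70) : ℝ)

theorem tab1 : ∀ i < 30, sufJ JJ i = JJ.getD i 0 + sufJ JJ (i + 1) := by decide +kernel

theorem tab2 : ∀ i < 30, JJ.getD i 0 ≤ slC (70 + i) := by
  intro i hi
  have h := chkJ
  unfold chkC at h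
  rw [List.all_eq_true] at h
  have := h i (List.mem_range.2 hi)
  exact Nat.ble_eq.mp this

theorem V_step (s : ℕ) (h1 : 70 ≤ s) (h2 : s ≤ 99) : V s - V (s + 1) ≤ (slC s : ℝ) := by
  have a := tab1 (s - 70) (by omega)
  have b := tab2 (s - 70) (by omega)
  rw [show 70 + (s - 70) = s by omega] at b
  have e : s + 1 - 70 = s - 70 + 1 := by omega
  unfold V
  rw [e, a]
  push_cast
  have : (JJ.getD (s - 70) 0 : ℝ) ≤ (slC s : ℝ) := by exact_mod_cast b
  linarith

theorem V_nonneg_step (s : ℕ) (h1 : 70 ≤ s) (h2 : s ≤ 99) : 0 ≤ V s - V (s + 1) := by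
  have a := tab1 (s - 70) (by omega)
  have e : s + 1 - 70 = s - 70 + 1 := by omega
  unfold V
  rw [e, a]
  push_cast
  have : (0 : ℝ) ≤ (JJ.getD (s - 70) 0 : ℝ) := Nat.cast_nonneg _
  linarith

theorem V_100 : V 100 = 0 := by
  have : sufJ JJ 30 = 0 := by decide +kernel
  unfold V
  norm_num [this]

theorem V_node (n : ℕ) (h1 : 76 ≤ n) (h2 : n ≤ 93) :
    (100600 - 994 * (n : ℝ)) * 188500000000000000000000000000000 + 1 ≤ V n := by
  have h := chkJ3
  unfold chk3 at h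
  rw [List.all_eq_true] at h
  have h3 := Nat.ble_eq.mp (h (n - 76) (List.mem_range.2 (by omega)))
  have e1 : 76 + (n - 76) = n := by omega
  have e2 : 6 + (n - 76) = n - 70 := by omega
  rw [e1, e2] at h3
  have e3 : 994 * n ≤ 100600 := by omega
  unfold V
  have h4 : (((100600 - 994 * n) * 188500000000000000000000000000000 + 1 : ℕ) : ℝ)
      ≤ (sufJ JJ (n - 70) : ℝ) := by exact_mod_cast h3
  rw [Nat.cast_add, Nat.cast_mul, Nat.cast_sub e3] at h4
  push_cast at h4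
  exact h4

theorem tab4 : ∀ i < 13, sufJ JJ 23 ≤ sufJ JJ (10 + i) := by decide +kernel

theorem V_node4 (n : ℕ) (h1 : 80 ≤ n) (h2 : n ≤ 92) :
    (93 - (n : ℝ)) * 1006 * 18850000000000000000000000000000000 + 1 ≤
      93 * (V n - V 93) + (93 - (n : ℝ)) * V 93 := by
  have h := chkJ4
  unfold chk4 at h
  rw [List.all_eq_true] at h
  have h3 := Nat.ble_eq.mp (h (n - 80) (List.mem_range.2 (by omega)))
  have e1 : 13 - (n - 80) = 93 - n := by omega
  have e2 : 10 + (n - 80) = n - 70 := by omega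
  have h5 := tab4 (n - 80) (by omega)
  rw [e2] at h5
  rw [e1, e2] at h3
  have e3 : n ≤ 93 := by omega
  have h4 : (((93 - n) * 1006 * 18850000000000000000000000000000000 + 1 : ℕ) : ℝ)
      ≤ ((93 * (sufJ JJ (n - 70) - sufJ JJ 23) + (93 - n) * sufJ JJ 23 : ℕ) : ℝ) := by
    exact_mod_cast h3
  rw [Nat.cast_add, Nat.cast_mul, Nat.cast_mul, Nat.cast_sub e3, Nat.cast_add, Nat.cast_mul,
    Nat.cast_mul, Nat.cast_sub h5, Nat.cast_sub e3] at h4
  unfold V
  norm_num at h4 ⊢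
  exact h4

/-! ### the functional `Im` -/

theorem PB_mono {a b : ℝ} (h : a ≤ b) : PB a ⊆ PB b := fun _ hz => ⟨hz.1, hz.2.trans_le h⟩

theorem Im_add (hC1 : StC1) {S T : Set (ℝ × ℝ)} (hS : MeasurableSet S) (hT : MeasurableSet T)
    (hS1 : S ⊆ PB 1) (hT1 : T ⊆ PB 1) (hd : Disjoint S T) : Im (S ∪ T) = Im S + Im T := by
  obtain ⟨-, -, -, hint⟩ := hC1
  have hm : MeasurableSet {y : ℝ × ℝ | 0 < y.1} := measurableSet_lt measurable_const measurable_fst
  unfold Im
  rw [union_inter_distrib_right]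
  exact setIntegral_union (hd.mono inter_subset_left inter_subset_left) (hT.inter hm)
    (hint S hS hS1) (hint T hT hT1)

theorem Im_nonneg (hC1 : StC1) {S : Set (ℝ × ℝ)} (hS : MeasurableSet S) (hS1 : S ⊆ PB 1) :
    0 ≤ Im S := by
  obtain ⟨-, hpos, -, -⟩ := hC1
  have hm : MeasurableSet {y : ℝ × ℝ | 0 < y.1} := measurableSet_lt measurable_const measurable_fst
  unfold Im
  refine setIntegral_nonneg (hS.inter hm) fun y hy => ?_
  have h2 : 0 < y.2 := (hS1 hy.1).1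
  exact mul_nonneg h2.le (hpos y hy.2 h2).le

theorem measPB (hP0 : StP0) {r : ℝ} (hr : 0 < r) : MeasurableSet (PB r) := by
  obtain ⟨-, -, -, -, -, -, hPB⟩ := hP0
  exact (hPB r hr).1.meas

theorem Im_split (hP0 : StP0) (hC1 : StC1) {a b c : ℝ} (ha : 0 < a) (hab : a ≤ b) (hbc : b ≤ c)
    (hc : c ≤ 1) : Im (PB c \ PB a) = Im (PB c \ PB b) + Im (PB b \ PB a) := by
  have hb : 0 < b := ha.trans_le hab
  have hc0 : 0 < c := hb.trans_le hbc
  rw [← Im_add hC1 ((measPB hP0 hc0).diff (measPB hP0 hb)) ((measPB hP0 hb).diff (measPB hP0 ha))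
    (diff_subset.trans (PB_mono hc)) (diff_subset.trans (PB_mono (hbc.trans hc)))
    (by
      rw [Set.disjoint_left]
      intro z hz hz'
      exact hz.2 hz'.1)]
  congr 1
  ext z
  constructor
  · intro hz
    by_cases h : z ∈ PB b
    · exact Or.inr ⟨h, hz.2⟩
    · exact Or.inl ⟨hz.1, h⟩
  · rintro (hz | hz)
    · exact ⟨hz.1, fun h => hz.2 (PB_mono hab h)⟩
    · exact ⟨PB_mono hbc hz.1, hz.2⟩

/-- the constant -/
def c0 : ℝ := Real.pi * 6 * 10 ^ 33

theorem c0_pos : 0 < c0 := by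
  unfold c0
  have := Real.pi_pos
  positivity

theorem c0_lt : c0 ≤ 18850000000000000000000000000000000 := by
  unfold c0
  have := Real.pi_lt_d4
  linarith

/-- part of a slab -/
theorem part (hC2 : StC2) (s : ℕ) (h1 : 70 ≤ s) (h2 : s ≤ 99) (x : ℝ) (hx : (s : ℝ) ≤ x)
    (hx' : x < s + 1) :
    ((s : ℝ) + 1 - x) * (V s - V (s + 1)) / c0 ≤ Im (PB (((s : ℝ) + 1) / 100) \ PB (x / 100)) := by
  have h := hC2 s (x / 100) (((s : ℝ) + 1) / 100) h1 h2 (by linarith) (by linarith) le_rfl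
  refine le_trans ?_ h
  have hD : 0 < ((s : ℝ) + 1) ^ 3 - (s : ℝ) ^ 3 := by
    have : ((s : ℝ) + 1) ^ 3 - (s : ℝ) ^ 3 = 3 * (s : ℝ) ^ 2 + 3 * s + 1 := by ring
    rw [this]
    positivity
  have e : ((((s : ℝ) + 1) / 100) ^ 3 - (x / 100) ^ 3) * 10 ^ 6 = ((s : ℝ) + 1) ^ 3 - x ^ 3 := by
    ring
  rw [e]
  unfold c0
  have hs0 : (0 : ℝ) ≤ s := Nat.cast_nonneg s
  have hr : (s : ℝ) + 1 - x ≤ (((s : ℝ) + 1) ^ 3 - x ^ 3) / (((s : ℝ) + 1) ^ 3 - (s : ℝ) ^ 3) := by
    rw [le_div_iff₀ hD]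
    have e1 : ((s : ℝ) + 1) ^ 3 - x ^ 3
        = ((s : ℝ) + 1 - x) * (((s : ℝ) + 1) ^ 2 + ((s : ℝ) + 1) * x + x ^ 2) := by ring
    have e2 : ((s : ℝ) + 1) ^ 3 - (s : ℝ) ^ 3
        = ((s : ℝ) + 1) ^ 2 + ((s : ℝ) + 1) * s + (s : ℝ) ^ 2 := by ring
    rw [e1, e2]
    refine mul_le_mul_of_nonneg_left ?_ (by linarith)
    nlinarith
  have hV := V_step s h1 h2
  have hV0 := V_nonneg_step s h1 h2
  have hπ := Real.pi_pos
  refine div_le_div_of_nonneg_right ?_ (by positivity)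
  refine mul_le_mul hr hV hV0 (le_trans (by linarith) hr)

/-- a union of slabs -/
theorem slabs' (hP0 : StP0) (hC1 : StC1) (hC2 : StC2) (s : ℕ) (hs : 70 ≤ s) (k : ℕ)
    (hk : s + k ≤ 100) :
    (V s - V (s + k)) / c0 ≤ Im (PB (((s + k : ℕ) : ℝ) / 100) \ PB ((s : ℝ) / 100)) := by
  induction k with
  | zero => simp [Im]
  | succ k ih =>
    have ih' := ih (by omega)
    have h := part hC2 (s + k) (by omega) (by omega) ((s + k : ℕ) : ℝ) le_rfl (by linarith)
    have hs0 : (70 : ℝ) ≤ s := by exact_mod_cast hs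
    have hk0 : ((s + k + 1 : ℕ) : ℝ) ≤ 100 := by exact_mod_cast hk
    push_cast at hk0
    rw [Im_split hP0 hC1 (a := (s : ℝ) / 100) (b := ((s + k : ℕ) : ℝ) / 100)
      (c := ((s + (k + 1) : ℕ) : ℝ) / 100) (by positivity)
      (by push_cast; gcongr; linarith [(Nat.cast_nonneg k : (0 : ℝ) ≤ k)])
      (by push_cast; gcongr; linarith) (by push_cast; rw [div_le_one (by norm_num)]; linarith)]
    have e1 : ((s + (k + 1) : ℕ) : ℝ) = ((s + k : ℕ) : ℝ) + 1 := by push_cast; ring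
    rw [e1]
    have e2 : (((s + k : ℕ) : ℝ) + 1 - ((s + k : ℕ) : ℝ)) = 1 := by ring
    rw [e2, one_mul] at h
    have e3 : (V s - V (s + (k + 1))) / c0
        = (V (s + k) - V (s + k + 1)) / c0 + (V s - V (s + k)) / c0 := by
      rw [← add_div]
      congr 1
      have : s + (k + 1) = s + k + 1 := by omega
      rw [this]
      ring
    rw [e3]
    exact add_le_add h ih'

/-- linear interpolation -/
theorem interp (hP0 : StP0) (hC1 : StC1) (hC2 : StC2) (s t : ℕ) (hs : 70 ≤ s) (hst : s + 1 ≤ t)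
    (ht : t ≤ 100) (x : ℝ) (hx : (s : ℝ) ≤ x) (hx' : x < s + 1) :
    (((s : ℝ) + 1 - x) * V s + (x - s) * V (s + 1) - V t) / c0 ≤
      Im (PB ((t : ℝ) / 100) \ PB (x / 100)) := by
  have h1 := part hC2 s hs (by omega) x hx hx'
  have h2 := slabs' hP0 hC1 hC2 (s + 1) (by omega) (t - (s + 1)) (by omega)
  have e0 : s + 1 + (t - (s + 1)) = t := by omega
  rw [e0] at h2
  have hs0 : (70 : ℝ) ≤ s := by exact_mod_cast hs
  have ht0 : (t : ℝ) ≤ 100 := by exact_mod_cast ht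
  have hst0 : (s : ℝ) + 1 ≤ t := by exact_mod_cast hst
  have hxp : 0 < x := by linarith
  rw [Im_split hP0 hC1 (a := x / 100) (b := ((s : ℝ) + 1) / 100) (c := (t : ℝ) / 100)
    (by positivity) (by gcongr) (by gcongr) (by rw [div_le_one (by norm_num)]; linarith)]
  push_cast at h2
  have e3 : (((s : ℝ) + 1 - x) * V s + (x - s) * V (s + 1) - V t) / c0
      = (V (s + 1) - V t) / c0 + ((s : ℝ) + 1 - x) * (V s - V (s + 1)) / c0 := by
    rw [← add_div]
    congr 1
    ring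
  rw [e3]
  exact add_le_add h2 h1

/-! ### symmetric integrals -/

/-- reflection in the vertical axis -/
def R : (ℝ × ℝ) ≃ₜ (ℝ × ℝ) := (Homeomorph.neg ℝ).prodCongr (Homeomorph.refl ℝ)

theorem R_apply (y : ℝ × ℝ) : R y = (-y.1, y.2) := rfl

theorem R_mp : MeasurePreserving R volume volume := by
  have h := (Measure.measurePreserving_neg (volume : Measure ℝ)).prod
    (MeasurePreserving.id (volume : Measure ℝ))
  exact h

theorem axis_null : volume {y : ℝ × ℝ | y.1 = 0} = 0 := by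
  have : {y : ℝ × ℝ | y.1 = 0} = ({0} : Set ℝ) ×ˢ (univ : Set ℝ) := by
    ext y
    simp
  rw [this, Measure.volume_eq_prod, Measure.prod_prod]
  simp

theorem sym_int {S : Set (ℝ × ℝ)} (hS : MeasurableSet S) (hsym : ∀ y ∈ S, ((-y.1, y.2) : ℝ × ℝ) ∈ S)
    {f : ℝ × ℝ → ℝ} (hf : IntegrableOn f S) :
    ∫ y in S, f y = ∫ y in S ∩ {y | 0 < y.1}, (f y + f (-y.1, y.2)) := by
  have hm : MeasurableSet {y : ℝ × ℝ | 0 < y.1} := measurableSet_lt measurable_const measurable_fst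
  have hm' : MeasurableSet {y : ℝ × ℝ | y.1 < 0} := measurableSet_lt measurable_fst measurable_const
  have hpre : R ⁻¹' (S ∩ {y | y.1 < 0}) = S ∩ {y | 0 < y.1} := by
    ext y
    simp only [mem_preimage, R_apply, mem_inter_iff, mem_setOf_eq]
    constructor
    · rintro ⟨h1, h2⟩
      refine ⟨?_, by linarith⟩
      have := hsym _ h1
      simpa using this
    · rintro ⟨h1, h2⟩
      exact ⟨hsym _ h1, by linarith⟩
  have e1 : ∫ y in S ∩ {y | 0 < y.1}, f (-y.1, y.2) = ∫ y in S ∩ {y | y.1 < 0}, f y := by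
    rw [← R_mp.setIntegral_preimage_emb R.measurableEmbedding f, hpre]
    rfl
  have hi : IntegrableOn (fun y => f (-y.1, y.2)) (S ∩ {y : ℝ × ℝ | 0 < y.1}) := by
    have h := (R_mp.integrableOn_comp_preimage R.measurableEmbedding
      (f := f) (s := S ∩ {y : ℝ × ℝ | y.1 < 0})).2 (hf.mono_set inter_subset_left)
    rw [hpre] at h
    exact h
  rw [integral_add (hf.mono_set inter_subset_left) hi, e1]
  have hS' : (S : Set (ℝ × ℝ)) =ᵐ[volume]
      ((S ∩ {y : ℝ × ℝ | 0 < y.1}) ∪ (S ∩ {y : ℝ × ℝ | y.1 < 0}) : Set (ℝ × ℝ)) := by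
    have h0 : ∀ᵐ y : ℝ × ℝ, ¬ (y.1 = 0) := by
      rw [ae_iff]
      simpa using axis_null
    filter_upwards [h0] with y hy
    refine propext ?_
    constructor
    · intro h
      rcases lt_or_gt_of_ne hy with h1 | h1
      · exact Or.inr ⟨h, h1⟩
      · exact Or.inl ⟨h, h1⟩
    · rintro (h | h)
      · exact h.1
      · exact h.1
  rw [setIntegral_congr_set hS']
  refine setIntegral_union ?_ (hS.inter hm') (hf.mono_set inter_subset_left)
    (hf.mono_set inter_subset_left)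
  rw [Set.disjoint_left]
  rintro y ⟨-, h1⟩ ⟨-, h2⟩
  have h1' : 0 < y.1 := h1
  have h2' : y.1 < 0 := h2
  linarith

theorem Im_le (hK2 : StK2) (hC1 : StC1) {S : Set (ℝ × ℝ)} (hS : MeasurableSet S)
    (hS1 : S ⊆ PB 1) (hfin : volume S < ∞) (hsym : ∀ y ∈ S, ((-y.1, y.2) : ℝ × ℝ) ∈ S)
    (p : ℝ × ℝ) (h1 : 0 ≤ p.1) (h2 : 0 ≤ p.2) (h3 : g p ≤ 1) : Im S ≤ ∫ y in S, N p y := by
  have hm : MeasurableSet {y : ℝ × ℝ | 0 < y.1} := measurableSet_lt measurable_const measurable_fst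
  have hSO : S ⊆ Om := fun y hy => (hS1 hy).1
  have hint := (hK2 S hS hSO hfin p h2).1
  rw [sym_int hS hsym hint]
  unfold Im
  have hi2 := (hK2 S hS hSO hfin p h2).1
  have hi : IntegrableOn (fun y => N p y + N p (-y.1, y.2)) (S ∩ {y : ℝ × ℝ | 0 < y.1}) := by
    refine (hi2.mono_set inter_subset_left).add ?_
    have hpre : R ⁻¹' (S ∩ {y | y.1 < 0}) = S ∩ {y | 0 < y.1} := by
      ext y
      simp only [mem_preimage, R_apply, mem_inter_iff, mem_setOf_eq]
      constructor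
      · rintro ⟨h1, h2⟩
        refine ⟨?_, by linarith⟩
        have := hsym _ h1
        simpa using this
      · rintro ⟨h1, h2⟩
        exact ⟨hsym _ h1, by linarith⟩
    have h := (R_mp.integrableOn_comp_preimage R.measurableEmbedding
      (f := N p) (s := S ∩ {y : ℝ × ℝ | y.1 < 0})).2 (hi2.mono_set inter_subset_left)
    rw [hpre] at h
    exact h
  refine setIntegral_mono_on_ae (hC1.2.2.2 S hS hS1) hi (hS.inter hm) ?_
  have hp : ∀ᵐ y : ℝ × ℝ, y ≠ p := by
    rw [ae_iff]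
    simp
  filter_upwards [hp] with y hy hyS
  exact hC1.1 p y h1 h2 h3 hyS.2 (hSO hyS.1) (Ne.symm hy)

end VD.M_C3

namespace VD

open M_C3

/-- close contacts are impossible (uses Chk/C.lean: JJ, chkJ, chkJ3), concavity between nodes -/
theorem mC3 (hK0 : StK0) (hK1 : StK1) (hK2 : StK2) (hP0 : StP0) (hU1 : StU1) (hC1 : StC1) (hC2 : StC2) : StC3 := by
  intro A ρ p q hc h76 h93
  have hU := (hU1 A ρ p q hc).1
  have hPB := hP0.2.2.2.2.2.2
  have hρ0 := hc.hρ
  have m1 : MeasurableSet (PB 1) := measPB hP0 one_pos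
  have mρ : MeasurableSet (PB ρ) := measPB hP0 hρ0
  have dm1 : DM (PB 1) := (hPB 1 one_pos).1
  have dmρ : DM (PB ρ) := (hPB ρ hρ0).1
  have hnull : volume {z : ℝ × ℝ | 0 < z.2 ∧ g z = 1} = 0 := (hPB 1 one_pos).2.2.2.2
  -- first set
  have hS1 : Im (PB 1 \ A) ≤ ∫ y in PB 1 \ A, N p y := by
    refine Im_le hK2 hC1 (m1.diff hc.dm.meas) diff_subset
      (lt_of_le_of_lt (measure_mono diff_subset) dm1.vol) ?_ p hc.p1 hc.p2 hc.gp.le
    intro y hy
    refine ⟨dm1.symm hy.1, fun h => hy.2 ?_⟩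
    have := hc.dm.symm h
    simpa using this
  -- second set
  have hS2 : Im ((A ∩ PB 1) \ PB ρ) ≤ ∫ y in A \ PB ρ, N q y := by
    have e : (A \ PB ρ : Set (ℝ × ℝ)) =ᵐ[volume] ((A ∩ PB 1) \ PB ρ : Set (ℝ × ℝ)) := by
      have h0 : ∀ᵐ z : ℝ × ℝ, ¬ (0 < z.2 ∧ g z = 1) := by
        rw [ae_iff]
        simpa using hnull
      filter_upwards [h0] with z hz
      refine propext ?_
      constructor
      · intro h
        refine ⟨⟨h.1, hc.dm.sub h.1, ?_⟩, h.2⟩
        exact lt_of_le_of_ne (hc.out z h.1) (fun e => hz ⟨hc.dm.sub h.1, e⟩)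
      · intro h
        exact ⟨h.1.1, h.2⟩
    rw [setIntegral_congr_set e]
    refine Im_le hK2 hC1 ((hc.dm.meas.inter m1).diff mρ) (diff_subset.trans inter_subset_right)
      (lt_of_le_of_lt (measure_mono (diff_subset.trans inter_subset_right)) dm1.vol) ?_ q hc.q1
      hc.q2 (hc.gq.le.trans hc.hρ1)
    intro y hy
    refine ⟨⟨hc.dm.symm hy.1.1, dm1.symm hy.1.2⟩, fun h => hy.2 ?_⟩
    have := dmρ.symm h
    simpa using this
  have hρ1 : ρ ≤ 1 := hc.hρ1
  have hJ : Im (PB 1 \ PB ρ) = Im (PB 1 \ A) + Im ((A ∩ PB 1) \ PB ρ) := by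
    rw [← Im_add hC1 (m1.diff hc.dm.meas) ((hc.dm.meas.inter m1).diff mρ) diff_subset
      (diff_subset.trans inter_subset_right)
      (by
        rw [Set.disjoint_left]
        intro z hz hz'
        exact hz.2 hz'.1.1)]
    congr 1
    ext z
    constructor
    · intro hz
      by_cases h : z ∈ A
      · exact Or.inr ⟨⟨h, hz.1⟩, hz.2⟩
      · exact Or.inl ⟨hz.1, h⟩
    · rintro (hz | hz)
      · exact ⟨hz.1, fun h => hz.2 (hc.inn z h.1 h.2)⟩
      · exact ⟨hz.1.2, hz.2⟩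
  have hup : Im (PB 1 \ PB ρ) ≤ 1006 - 994 * ρ := by
    rw [hJ]
    linarith
  -- lower bound
  set x : ℝ := 100 * ρ with hx
  have hx1 : (76 : ℝ) ≤ x := by
    rw [hx]
    linarith
  have hx2 : x ≤ 93 := by
    rw [hx]
    linarith
  have hx0 : 0 ≤ x := by linarith
  set s : ℕ := ⌊x⌋₊ with hs
  have hs1 : (s : ℝ) ≤ x := Nat.floor_le hx0
  have hs2 : x < s + 1 := Nat.lt_floor_add_one x
  have hs76 : 76 ≤ s := Nat.le_floor (by exact_mod_cast hx1)
  have hs93 : s ≤ 93 := by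
    have : (s : ℝ) ≤ 93 := hs1.trans hx2
    exact_mod_cast this
  have hlow := interp hP0 hC1 hC2 s 100 (by omega) (by omega) le_rfl x hs1 hs2
  rw [V_100, sub_zero] at hlow
  have e1 : ((100 : ℕ) : ℝ) / 100 = 1 := by norm_num
  have e2 : x / 100 = ρ := by
    rw [hx]
    ring
  rw [e1, e2] at hlow
  have hn1 := V_node s hs76 hs93
  have hcomb : (100600 - 994 * x) * 188500000000000000000000000000000 <
      ((s : ℝ) + 1 - x) * V s + (x - s) * V (s + 1) := by
    rcases Nat.lt_or_ge s 93 with h | h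
    · have hn2 := V_node (s + 1) (by omega) (by omega)
      push_cast at hn2
      have a1 := mul_le_mul_of_nonneg_left hn1 (by linarith : (0 : ℝ) ≤ (s : ℝ) + 1 - x)
      have a2 := mul_le_mul_of_nonneg_left hn2 (by linarith : (0 : ℝ) ≤ x - s)
      nlinarith
    · have h93' : s = 93 := le_antisymm hs93 h
      have hxs : x = s := by
        refine le_antisymm ?_ hs1
        rw [h93']
        exact_mod_cast hx2
      rw [hxs]
      have : ((s : ℝ) + 1 - s) * V s + ((s : ℝ) - s) * V (s + 1) = V s := by ring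
      rw [this]
      linarith
  have hlow2 := hlow.trans hup
  rw [div_le_iff₀ c0_pos] at hlow2
  have h5 : (1006 - 994 * ρ) * c0 ≤ (1006 - 994 * ρ) * 18850000000000000000000000000000000 :=
    mul_le_mul_of_nonneg_left c0_lt (by linarith)
  have h6 : (100600 - 994 * x) * 188500000000000000000000000000000
      = (1006 - 994 * ρ) * 18850000000000000000000000000000000 := by
    rw [hx]
    ring
  linarith

end VD
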