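import Pool.Agent.Helper64.VD.M_C3

open MeasureTheory Set Filter Topology
open scoped ENNReal

noncomputable section

namespace VD

open M_C3

/-- numerical inequality for two solutions (uses Chk/C.lean: chkJ, chkJ4) -/
theorem mC4 (hK0 : StK0) (hK1 : StK1) (hK2 : StK2) (hP0 : StP0) (hC1 : StC1) (hC2 : StC2) : StC4 := by
  intro ρ h1 h2
  set x : ℝ := 93 * ρ with hx
  have hx1 : (80 : ℝ) ≤ x := by
    rw [hx]
    norm_num at h1
    linarith
  have hx2 : x < 93 := by
    rw [hx]
    linarith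
  have hx0 : 0 ≤ x := by linarith
  set s : ℕ := ⌊x⌋₊ with hs
  have hs1 : (s : ℝ) ≤ x := Nat.floor_le hx0
  have hs2 : x < s + 1 := Nat.lt_floor_add_one x
  have hs80 : 80 ≤ s := Nat.le_floor (by exact_mod_cast hx1)
  have hs92 : s ≤ 92 := by
    have : (s : ℝ) < 93 := hs1.trans_lt hx2
    have : s < 93 := by exact_mod_cast this
    omega
  have l1 := interp hP0 hC1 hC2 s 93 (by omega) (by omega) (by norm_num) x hs1 hs2
  have l2 := slabs' hP0 hC1 hC2 93 (by norm_num) 7 (by norm_num)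
  have e1 : x / 100 = 93 / 100 * ρ := by
    rw [hx]
    ring
  rw [e1] at l1
  have e2 : (93 + 7 : ℕ) = 100 := by norm_num
  rw [e2, V_100, sub_zero] at l2
  have e3 : ((100 : ℕ) : ℝ) / 100 = 1 := by norm_num
  rw [e3] at l2
  push_cast at l1 l2
  have hn1 := V_node4 s hs80 hs92
  have hn2 : (93 - ((s : ℝ) + 1)) * 1006 * 18850000000000000000000000000000000 ≤
      93 * (V (s + 1) - V 93) + (93 - ((s : ℝ) + 1)) * V 93 := by
    rcases Nat.lt_or_ge s 92 with h | h
    · have := V_node4 (s + 1) (by omega) (by omega)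
      push_cast at this
      linarith
    · have h92 : s = 92 := le_antisymm hs92 h
      rw [h92]
      norm_num
  have a1 := mul_lt_mul_of_pos_left (lt_of_lt_of_le (lt_add_one _) hn1)
    (by linarith : (0 : ℝ) < (s : ℝ) + 1 - x)
  have a2 := mul_le_mul_of_nonneg_left hn2 (by linarith : (0 : ℝ) ≤ x - s)
  have hc := c0_pos
  have hc' := c0_lt
  have key : (93 - x) * 1006 * 18850000000000000000000000000000000 <
      93 * (((s : ℝ) + 1 - x) * V s + (x - s) * V (s + 1) - V 93) + (93 - x) * V 93 := by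
    nlinarith
  have hle : (93 - x) * 1006 * c0 ≤ (93 - x) * 1006 * 18850000000000000000000000000000000 :=
    mul_le_mul_of_nonneg_left hc' (by nlinarith)
  have hρ : (1 - ρ) = (93 - x) / 93 := by
    rw [hx]
    ring
  have h1ρ : 0 ≤ 1 - ρ := by linarith
  have b1 : (1 - ρ) * (V 93 / c0) ≤ (1 - ρ) * Im (PB 1 \ PB (93 / 100)) :=
    mul_le_mul_of_nonneg_left l2 h1ρ
  refine lt_of_lt_of_le ?_ (add_le_add l1 b1)
  rw [hρ]
  have e4 : (((s : ℝ) + 1 - x) * V s + (x - s) * V (s + 1) - V 93) / c0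
      + (93 - x) / 93 * (V 93 / c0)
      = (93 * (((s : ℝ) + 1 - x) * V s + (x - s) * V (s + 1) - V 93) + (93 - x) * V 93)
        / (93 * c0) := by
    field_simp
  rw [e4, lt_div_iff₀ (by positivity)]
  have e5 : (93 - x) / 93 * 1006 * (93 * c0) = (93 - x) * 1006 * c0 := by
    field_simp
  rw [e5]
  linarith

end VD
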